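import Pool.Agent.R66.BX.Deg

set_option autoImplicit false

/-!
# The Harbourne-Hirschowitz conjecture with five arbitrary multiplicities: all but few degrees

Let `m ≥ 1`, let `n ≥ 4` be any number of points and let `w 1, …, w n` be any multiplicities of which
at most five are larger than `m`. The degrees `d` in which the conjecture fails for `w` (for general
points of the complex projective plane the linear system is special if and only if it is
`(-1)`-special) lie in an interval of length `512 (4 m ^ 2 + 8 m + 5) ^ 2`. This bound depends neither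
on the number of the points nor on the five arbitrary multiplicities.
-/

namespace Pool.Agent.Results.MP_6b2d39_ag.ShortDegreeInterval

open MvPolynomial Pool.Agent.TH167

/-- The Harbourne-Hirschowitz conjecture for the class `(d; w)`, for all points outside of a
hypersurface. -/
def HH {n : ℕ} (d : ℕ) (w : Fin n → ℕ) : Prop :=
  ∃ F : MvPolynomial (Fin n × Fin 2) ℂ, F ≠ 0 ∧ ∀ P : Fin n → Fin 2 → ℂ,
    MvPolynomial.eval (fun ij : Fin n × Fin 2 => P ij.1 ij.2) F ≠ 0 →
      (SHDefs.Special P d w ↔ SHDefs.MinusOneSpecial P d w)

/-- **Main result.** -/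
theorem result (n m : ℕ) (hn : 4 ≤ n) (hm : 1 ≤ m) (w : Fin n → ℕ)
    (hw : (Finset.univ.filter fun i => m < w i).card ≤ 5) :
    ∃ α : ℕ, ∀ d, ¬ HH d w → α ≤ d ∧ d < α + 512 * (4 * m ^ 2 + 8 * m + 5) ^ 2 :=
  Pool.Agent.R66.BX.Deg.interval hn hm hw

end Pool.Agent.Results.MP_6b2d39_ag.ShortDegreeInterval
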