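import Mathlib
import Pool.Agent.R559.NP.Near7
import Pool.Agent.Results.MP_6b2d39_ag.ShortDegreeInterval

/-!
# The Harbourne-Hirschowitz conjecture for the classes near a direction

Let `φ` be any map from the classes `x = (d; a_1, …, a_5)`, `d, a_j ≥ 1`, to a metric space, for example the direction
`(a_1 / d, …, a_5 / d)`. For all points `ξ` outside a set of Hausdorff dimension at most `5 / τ`, and for almost all `ξ` with
respect to a measure of dimension larger than `5 / τ`, the following holds for all `m`, `r` and `A`: for all but finitely many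
`x` with `dist (φ x) ξ ≤ A |x| ^ (-τ)` and all `v_1, …, v_r ≤ m`, the class of degree `d` with the multiplicities
`v_1, …, v_r, a_1, …, a_5` at general points is special if and only if it is `(-1)`-special.
-/

set_option autoImplicit false

namespace Pool.Agent.Results.MP_6b2d39_ag.ClassesNearADirection

open MeasureTheory Pool.Agent.R559.NP

/-- The conjecture (at general points the system is special if and only if it is `(-1)`-special) holds for the class of
degree `x.1` with the multiplicities `v` and `x.2`, for all `v 1, …, v r ≤ m`. -/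
def HHAll (m r : ℕ) (x : ℕ × (Fin 5 → ℕ)) : Prop :=
  ∀ v : Fin r → ℕ, (∀ i, v i ≤ m) → ShortDegreeInterval.HH x.1 (Fin.append v x.2)

theorem card_large {m r : ℕ} (v : Fin r → ℕ) (hv : ∀ i, v i ≤ m) (a : Fin 5 → ℕ) :
    (Finset.univ.filter fun i => m < Fin.append v a i).card ≤ 5 := by
  classical
  have hsub : (Finset.univ.filter fun i => m < Fin.append v a i) ⊆
      (Finset.univ : Finset (Fin 5)).image (Fin.natAdd r) := by
    intro i hi
    rw [Finset.mem_filter] at hi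
    rw [Finset.mem_image]
    revert hi
    refine Fin.addCases (fun j => ?_) (fun j => ?_) i
    · intro hi
      rw [Fin.append_left] at hi
      have := hv j
      omega
    · intro _
      exact ⟨j, Finset.mem_univ _, rfl⟩
  exact (Finset.card_le_card hsub).trans (Finset.card_image_le.trans (by simp))

theorem count (m r : ℕ) : ∃ K : ℝ, ∀ T : ℕ, 1 ≤ T →
    (({x : ℕ × (Fin 5 → ℕ) | (Pos x ∧ ¬ HHAll m r x) ∧ csize x ≤ T}.ncard : ℕ) : ℝ) ≤
      K * (T : ℝ) ^ (5 : ℝ) := by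
  classical
  set N : ℕ := 512 * (4 * (m + 1) ^ 2 + 8 * (m + 1) + 5) ^ 2 with hN
  have key : ∀ (v : Fin r → ℕ) (a : Fin 5 → ℕ), ∃ α : ℕ, (∀ i, v i ≤ m) →
      ∀ d, ¬ ShortDegreeInterval.HH d (Fin.append v a) → α ≤ d ∧ d < α + N := by
    intro v a
    by_cases hv : ∀ i, v i ≤ m
    · obtain ⟨α, hα⟩ := ShortDegreeInterval.result (r + 5) (m + 1) (by omega) (by omega)
        (Fin.append v a) (card_large v (fun i => (hv i).trans (Nat.le_succ m)) a)
      exact ⟨α, fun _ => hα⟩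
    · exact ⟨0, fun h => absurd h hv⟩
  choose α hα using key
  refine ⟨((m + 1) ^ r * N : ℕ), fun T hT => ?_⟩
  have hsub : {x : ℕ × (Fin 5 → ℕ) | (Pos x ∧ ¬ HHAll m r x) ∧ csize x ≤ T} ⊆
      (((Fintype.piFinset fun _ : Fin r => Finset.range (m + 1)) ×ˢ
        (Fintype.piFinset fun _ : Fin 5 => Finset.Icc 1 T)).biUnion fun p =>
          (Finset.Ico (α p.1 p.2) (α p.1 p.2 + N)).image fun d => (d, p.2) :
            Finset (ℕ × (Fin 5 → ℕ))) := by
    rintro x ⟨⟨h1, h2⟩, h3⟩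
    unfold HHAll at h2
    push Not at h2
    obtain ⟨v, hv, h4⟩ := h2
    rw [csize_le] at h3
    rw [Finset.mem_coe, Finset.mem_biUnion]
    refine ⟨(v, x.2), ?_, ?_⟩
    · rw [Finset.mem_product, Fintype.mem_piFinset, Fintype.mem_piFinset]
      exact ⟨fun i => Finset.mem_range.2 (Nat.lt_succ_of_le (hv i)),
        fun j => Finset.mem_Icc.2 ⟨h1.2 j, h3.2 j⟩⟩
    · rw [Finset.mem_image]
      have h5 := hα v x.2 hv x.1 h4
      exact ⟨x.1, Finset.mem_Ico.2 h5, rfl⟩
  have h1 : {x : ℕ × (Fin 5 → ℕ) | (Pos x ∧ ¬ HHAll m r x) ∧ csize x ≤ T}.ncard ≤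
      (m + 1) ^ r * N * T ^ 5 := by
    have h2 := Set.ncard_le_ncard hsub (Finset.finite_toSet _)
    rw [Set.ncard_coe_finset] at h2
    refine h2.trans (Finset.card_biUnion_le.trans ?_)
    calc _ ≤ ∑ _p ∈ (Fintype.piFinset fun _ : Fin r => Finset.range (m + 1)) ×ˢ
          (Fintype.piFinset fun _ : Fin 5 => Finset.Icc 1 T), N := by
          refine Finset.sum_le_sum fun p _ => Finset.card_image_le.trans ?_
          rw [Nat.card_Ico]
          omega
      _ = (m + 1) ^ r * N * T ^ 5 := by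
          rw [Finset.sum_const, Finset.card_product, Fintype.card_piFinset,
            Fintype.card_piFinset]
          simp
          ring
  calc _ ≤ (((m + 1) ^ r * N * T ^ 5 : ℕ) : ℝ) := by exact_mod_cast h1
    _ = (((m + 1) ^ r * N : ℕ) : ℝ) * (T : ℝ) ^ (5 : ℝ) := by
        push_cast
        norm_num

/-- **Main result.** The Harbourne-Hirschowitz conjecture for all but finitely many of the classes near a direction: for
all directions outside a set of dimension at most `5 / τ`, and for almost all directions `(1 : ξ_1 : … : ξ_5)` if `τ > 1`,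
simultaneously for all numbers `r` and all additional multiplicities `v_1, …, v_r`. -/
theorem result :
    (∀ (X : Type) [MetricSpace X] (φ : ℕ × (Fin 5 → ℕ) → X) (τ : ℝ), 0 < τ →
      ∃ E : Set X, dimH E ≤ ENNReal.ofReal (5 / τ) ∧ ∀ ξ : X, ξ ∉ E → ∀ (m r : ℕ) (A : ℝ),
        {x : ℕ × (Fin 5 → ℕ) | Pos x ∧ dist (φ x) ξ ≤ A * (csize x : ℝ) ^ (-τ) ∧
          ¬ HHAll m r x}.Finite) ∧
    (∀ (X : Type) [MetricSpace X] [MeasurableSpace X] (φ : ℕ × (Fin 5 → ℕ) → X)
      (μ : Measure X) (C₀ δ τ : ℝ),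
      (∀ (x : X) (r : ℝ), 0 < r → μ (Metric.closedBall x r) ≤ ENNReal.ofReal (C₀ * r ^ δ)) →
      5 < τ * δ → ∀ᵐ ξ ∂μ, ∀ (m r : ℕ) (A : ℝ),
        {x : ℕ × (Fin 5 → ℕ) | Pos x ∧ dist (φ x) ξ ≤ A * (csize x : ℝ) ^ (-τ) ∧
          ¬ HHAll m r x}.Finite) ∧
    ∀ τ : ℝ, 1 < τ → ∀ᵐ ξ : Fin 5 → ℝ, ∀ (m r : ℕ) (A : ℝ),
      {x : ℕ × (Fin 5 → ℕ) | Pos x ∧
        (∀ j, |(x.2 j : ℝ) / x.1 - ξ j| ≤ A * (x.1 : ℝ) ^ (-τ)) ∧ ¬ HHAll m r x}.Finite := by
  have hc : ∀ i : ℕ, ∃ K : ℝ, ∀ T : ℕ, 1 ≤ T →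
      (({x : ℕ × (Fin 5 → ℕ) | (Pos x ∧ ¬ HHAll (Nat.unpair i).1 (Nat.unpair i).2 x) ∧
        csize x ≤ T}.ncard : ℕ) : ℝ) ≤ K * (T : ℝ) ^ (5 : ℝ) := fun i => count _ _
  have hpair : ∀ m r : ℕ, (Nat.unpair (Nat.pair m r)).1 = m ∧
      (Nat.unpair (Nat.pair m r)).2 = r := fun m r => by simp
  refine ⟨fun X _ φ τ hτ => ?_, fun X _ _ φ μ C₀ δ τ hμ hτ => ?_, fun τ hτ => ?_⟩
  · obtain ⟨E, hE, h⟩ := class_dim (Bad := fun i x => ¬ HHAll (Nat.unpair i).1 (Nat.unpair i).2 x)
      (by norm_num) hc φ hτ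
    refine ⟨E, hE, fun ξ hξ m r A => ?_⟩
    have h1 := h ξ hξ (Nat.pair m r) A
    rwa [(hpair m r).1, (hpair m r).2] at h1
  · have h := class_ae (Bad := fun i x => ¬ HHAll (Nat.unpair i).1 (Nat.unpair i).2 x)
      (by norm_num) hc φ μ hμ hτ
    filter_upwards [h] with ξ hξ m r A
    have h1 := hξ (Nat.pair m r) A
    rwa [(hpair m r).1, (hpair m r).2] at h1
  · have h := class_dir (Bad := fun i x => ¬ HHAll (Nat.unpair i).1 (Nat.unpair i).2 x)
      (by norm_num) hc (τ := τ) (by linarith) (by push_cast; linarith)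
    filter_upwards [h] with ξ hξ m r A
    have h1 := hξ (Nat.pair m r) A
    rwa [(hpair m r).1, (hpair m r).2] at h1

end Pool.Agent.Results.MP_6b2d39_ag.ClassesNearADirection
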