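import Mathlib
import Pool.Agent.R355.NineH
import Pool.Agent.TH167.SH.Defs

set_option autoImplicit false

/-!
# The Harbourne-Hirschowitz conjecture with nine arbitrary multiplicities

Let `L = L_d (m 1, …, m n)` be a linear system with general base points, let `T` be nine of the points
and let `q` be (at least) the sum of the multiplicities at the other points. The nine multiplicities
at the points of `T`, and the degree, are arbitrary.

* If `L` is standard (the sum of any three multiplicities is at most `d`) and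
  `2 d > 15 q ^ 2 + 27 q + 15`, then `L` is nonspecial. So for every `q` there are only finitely many
  standard classes (for all numbers of points together, up to zero multiplicities) which might be
  special, with an explicit bound.
* For every `q`, the conjecture (special if and only if `(-1)`-special) for ALL systems with nine
  arbitrary multiplicities and the others of sum at most `q` is equivalent to the nonspeciality of
  these finitely many standard classes.
* An explicit form: a standard class with `3 d > ∑ i ∈ T, m i`, the multiplicities on `T` being at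
  least `5 ∑ j ∉ T, binom (m j + 1, 2) + n - 5`, imposes independent conditions.

The proof: for general points there is an irreducible curve `G` of degree one on the anticanonical
class of the nine points (a class `E + b (-K)` or `L + b (-K)` on the nine points) which has at least
the prescribed multiplicities at the other points; the restriction of the system to `G` is nonspecial
and the residual system lives on the nine points.
-/

namespace Pool.Agent.Results.MP_6b2d39_ag.NineArbitraryMultiplicities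

open MvPolynomial Pool.Agent.TH167.SHDefs

/-- The property holds for all `n`-tuples of points outside some hypersurface. -/
def ForGeneral {n : ℕ} (p : (Fin n → Fin 2 → ℂ) → Prop) : Prop :=
  ∃ F : MvPolynomial (Fin n × Fin 2) ℂ, F ≠ 0 ∧ ∀ P : Fin n → Fin 2 → ℂ,
    eval (fun ij : Fin n × Fin 2 => P ij.1 ij.2) F ≠ 0 → p P

/-- The system with general base points is nonspecial. -/
def Nonspecial {n : ℕ} (d : ℕ) (w : Fin n → ℕ) : Prop := ForGeneral fun P => ¬ Special P d w

/-- The conditions are independent: the dimension is the virtual dimension. -/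
def Independent {n : ℕ} (d : ℕ) (w : Fin n → ℕ) : Prop :=
  ForGeneral fun P => dimL P d w = virtdim d w

/-- The assertion of Q1 for the class `(d; w)`. -/
def Conj {n : ℕ} (d : ℕ) (w : Fin n → ℕ) : Prop :=
  ForGeneral fun P => (Special P d w ↔ MinusOneSpecial P d w)

/-- The class `(d; w)` is standard. -/
def Standard {n : ℕ} (d : ℕ) (w : Fin n → ℕ) : Prop :=
  ∀ i j l : Fin n, i ≠ j → i ≠ l → j ≠ l → w i + w j + w l ≤ d

open Pool.Agent.TH167.SH Pool.Agent.R355.Gen Pool.Agent.W609.CR in
theorem nonspecial_iff {n : ℕ} (d : ℕ) (w : Fin n → ℕ) :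
    Nonspecial d w ↔ ∀ P : Fin n → Fin 2 → ℂ,
      AlgebraicIndependent ℚ (fun ij : Fin n × Fin 2 => P ij.1 ij.2) →
        (Module.finrank ℂ ↥(VS (fun j => aff (P j)) w d) : ℤ) = max 0 (chi d w) := by
  have h := gen_iff d w (max 0 (chi d w))
  have h1 : ∀ P : Fin n → Fin 2 → ℂ, ¬ Pool.Agent.TH167.SHDefs.Special P d w ↔
      (Module.finrank ℂ ↥(sys P d w) : ℤ) = max 0 (chi d w) := by
    intro P
    rw [special_conv, sys_eq]
    unfold Pool.Agent.TH167.SH.Special
    rw [not_not]
  have h2 : (∀ P : Fin n → Fin 2 → ℂ,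
      AlgebraicIndependent ℚ (fun ij : Fin n × Fin 2 => P ij.1 ij.2) →
        (Module.finrank ℂ ↥(sys P d w) : ℤ) = max 0 (chi d w)) ↔
      ∀ P : Fin n → Fin 2 → ℂ,
      AlgebraicIndependent ℚ (fun ij : Fin n × Fin 2 => P ij.1 ij.2) →
        (Module.finrank ℂ ↥(VS (fun j => aff (P j)) w d) : ℤ) = max 0 (chi d w) := by
    constructor
    · intro h3 P hP
      have := h3 P hP
      rwa [sys_eq] at this
    · intro h3 P hP
      rw [sys_eq]
      exact h3 P hP
  rw [← h2, ← h]
  constructor
  · rintro ⟨F, hF, h3⟩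
    exact ⟨F, hF, fun P hP => (h1 P).1 (h3 P hP)⟩
  · rintro ⟨F, hF, h3⟩
    exact ⟨F, hF, fun P hP => (h1 P).2 (h3 P hP)⟩

open Pool.Agent.TH167.SH Pool.Agent.R355.Gen Pool.Agent.W609.CR in
theorem independent_of {n : ℕ} (d : ℕ) (w : Fin n → ℕ) (h : ∀ P : Fin n → Fin 2 → ℂ,
      AlgebraicIndependent ℚ (fun ij : Fin n × Fin 2 => P ij.1 ij.2) →
        (Module.finrank ℂ ↥(VS (fun j => aff (P j)) w d) : ℤ) = chi d w) : Independent d w := by
  obtain ⟨F, hF, h1⟩ := (gen_iff d w (chi d w)).2 fun P hP => by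
    rw [sys_eq]
    exact h P hP
  refine ⟨F, hF, fun P hP => ?_⟩
  have h2 := h1 P hP
  rw [sys_eq] at h2
  show dimL P d w = virtdim d w
  rw [dimL_eq, virtdim_eq, h2]

open Pool.Agent.TH167.SH Pool.Agent.R355 Pool.Agent.W609.CR in
theorem result :
    -- (1) nine arbitrary multiplicities, large degree
    (∀ (n : ℕ) (T : Finset (Fin n)), T.card = 9 → ∀ (d : ℕ) (w : Fin n → ℕ) (q : ℕ),
      Standard d w → ∑ j ∈ Tᶜ, w j ≤ q → 15 * q ^ 2 + 27 * q + 15 < 2 * d → Nonspecial d w) ∧
    -- (2) the equivalence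
    (∀ q : ℕ,
      (∀ (n : ℕ) (T : Finset (Fin n)), T.card = 9 → ∀ (d : ℕ) (w : Fin n → ℕ),
        ∑ j ∈ Tᶜ, w j ≤ q → Conj d w) ↔
      (∀ (n : ℕ) (T : Finset (Fin n)), T.card = 9 → ∀ (d : ℕ) (w : Fin n → ℕ),
        Standard d w → ∑ j ∈ Tᶜ, w j ≤ q → 2 * d ≤ 15 * q ^ 2 + 27 * q + 15 → Nonspecial d w)) ∧
    -- (3) the explicit form
    (∀ (n : ℕ) (T : Finset (Fin n)), T.card = 9 → ∀ (d : ℕ) (w : Fin n → ℕ),
      Standard d w → ∑ i ∈ T, w i < 3 * d →
      (∀ i ∈ T, 5 * ∑ j ∈ Tᶜ, (w j + 1).choose 2 + n ≤ w i + 5) → Independent d w) := by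
  classical
  have hn9 : ∀ {n : ℕ} {T : Finset (Fin n)}, T.card = 9 → ∃ r, n = r + 4 := by
    intro n T hT
    have h1 := Finset.card_le_univ T
    rw [Fintype.card_fin, hT] at h1
    exact ⟨n - 4, by omega⟩
  have h1 : ∀ (n : ℕ) (T : Finset (Fin n)), T.card = 9 → ∀ (d : ℕ) (w : Fin n → ℕ) (q : ℕ),
      Standard d w → ∑ j ∈ Tᶜ, w j ≤ q → 15 * q ^ 2 + 27 * q + 15 < 2 * d → Nonspecial d w := by
    intro n T hT d w q hs hq hd
    obtain ⟨r, rfl⟩ := hn9 hT
    rw [nonspecial_iff]
    intro P hP
    exact Nine.nine_main hP hT hs hq hd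
  refine ⟨h1, fun q => ⟨fun h n T hT d w hs hq _ => ?_, fun h n T hT d w hq => ?_⟩,
    fun n T hT d w hs ha hl => ?_⟩
  · obtain ⟨r, rfl⟩ := hn9 hT
    obtain ⟨F, hF, h2⟩ := h (r + 4) T hT d w hq
    refine ⟨F, hF, fun P hP hsp => ?_⟩
    have h3 := (h2 P hP).1 hsp
    rw [mspecial_conv] at h3
    exact Nine.not_mspecial hs h3
  · obtain ⟨r, rfl⟩ := hn9 hT
    have hstd : Nine.StdNonsp T q := by
      intro d1 w1 hr hq1
      rw [← nonspecial_iff]
      rcases Nat.lt_or_ge (15 * q ^ 2 + 27 * q + 15) (2 * d1) with hd | hd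
      · exact h1 (r + 4) T hT d1 w1 q hr hq1 hd
      · exact h (r + 4) T hT d1 w1 hr hq1 hd
    obtain ⟨F, hF, h2⟩ := Nine.hhq hstd d w hq
    refine ⟨F.map (algebraMap ℚ ℂ), map_ne hF, fun P hP => ?_⟩
    rw [evP_eval] at hP
    rw [special_conv, mspecial_conv]
    exact ⟨h2 ℂ P hP, fun h3 => h3.special⟩
  · obtain ⟨r, rfl⟩ := hn9 hT
    refine independent_of d w fun P hP => ?_
    by_cases hoff : ∃ j, j ∉ T ∧ 1 ≤ w j
    · obtain ⟨i0, hi0, hmin⟩ := Finset.exists_min_image T w (by
        rw [← Finset.card_pos]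
        omega)
      have h2 := hl i0 hi0
      refine Nine.nine_large hP hT hs hi0 hmin hoff ha ?_
      unfold Nine.tau
      omega
    · push Not at hoff
      refine Nine.anti hP hs ?_
      have h2 := Finset.sum_add_sum_compl T w
      have h3 : ∑ j ∈ Tᶜ, w j = 0 := Finset.sum_eq_zero fun j hj => by
        have := hoff j (Finset.mem_compl.1 hj)
        omega
      omega

end Pool.Agent.Results.MP_6b2d39_ag.NineArbitraryMultiplicities
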