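import Pool.Agent.R873.SB.Std

set_option autoImplicit false

/-!
# The Harbourne-Hirschowitz conjecture up to a uniform quadratic error

Let `P` be `n ≥ 4` very general points of the complex projective plane.

(1) For EVERY class `(d; w)` with multiplicities `w i ≤ μ` the dimension of the linear system
exceeds the expected one by at most `6409 (μ + 1) ^ 2`, whatever the degree and the number of points.

(2) Let the system be nonempty. Then disjoint `(-1)`-curves `G a`, taken `N a` times, can be removed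
such that the residual class is carried by quadratic transformations to a standard class `(d1; w1)`
with `dim L = dim L_{d1}(w1)` and `virtdim (d1; w1) = virtdim (d; w) + ∑ (N a).choose 2`, and this number,
the dimension predicted by the conjecture, differs from `dim L` by at most `6409 (μ + 1) ^ 2`, `μ` the
largest multiplicity of the standard form; if it differs at all, then
`∑ w1 i + 4 |virtdim (d1; w1) + 1| < 25000 (μ + 1) ^ 2`.

(3) The order of the bound (1) is the right one: for every `μ ≥ 2` there are systems with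
multiplicities at most `μ` whose dimension exceeds the expected one by at least `μ ^ 2 / 16`.
-/

namespace Pool.Agent.Results.MP_6b2d39_ag.UniformError

open MvPolynomial Pool.Agent.TH167.SHDefs Pool.Agent.R873.SB

/-- **Main result.** -/
theorem result (n : ℕ) (hn : 4 ≤ n) :
    ∃ Z : ℕ → MvPolynomial (Fin n × Fin 2) ℂ, (∀ j, Z j ≠ 0) ∧
      ∀ P : Fin n → Fin 2 → ℂ,
        (∀ j, MvPolynomial.eval (fun ij : Fin n × Fin 2 => P ij.1 ij.2) (Z j) ≠ 0) →
        (∀ (d μ : ℕ) (w : Fin n → ℕ), (∀ i, w i ≤ μ) →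
          dimL P d w ≤ max (virtdim d w) (-1) + 6409 * ((μ : ℤ) + 1) ^ 2) ∧
        (∀ (d : ℕ) (w : Fin n → ℕ), 0 ≤ dimL P d w →
          ∃ (d' : ℕ) (w' : Fin n → ℕ) (k : ℕ) (G : Fin k → MvPolynomial (Fin 3) ℂ)
            (e : Fin k → ℕ) (u : Fin k → Fin n → ℕ) (N : Fin k → ℕ) (d1 : ℕ) (w1 : Fin n → ℕ),
            Decomp P d w d' w' G e u N ∧ Relation.ReflTransGen Quadratic (d', w') (d1, w1) ∧
            (∀ i j k : Fin n, i ≠ j → i ≠ k → j ≠ k → w1 i + w1 j + w1 k ≤ d1) ∧
            dimL P d1 w1 = dimL P d w ∧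
            virtdim d1 w1 = virtdim d w + ∑ a, ((N a).choose 2 : ℤ) ∧
            virtdim d1 w1 ≤ dimL P d w ∧
            ∀ μ : ℕ, (∀ i, w1 i ≤ μ) →
              dimL P d w ≤ virtdim d1 w1 + 6409 * ((μ : ℤ) + 1) ^ 2 ∧
              (virtdim d1 w1 < dimL P d w →
                ∑ i, (w1 i : ℤ) + 4 * |virtdim d1 w1 + 1| < 25000 * ((μ : ℤ) + 1) ^ 2)) ∧
        ∀ μ : ℕ, 2 ≤ μ → ∃ (d : ℕ) (w : Fin n → ℕ), (∀ i, w i ≤ μ) ∧ 0 ≤ dimL P d w ∧
          (μ : ℤ) ^ 2 ≤ 16 * (dimL P d w - max (virtdim d w) (-1)) := by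
  obtain ⟨r, rfl⟩ : ∃ r, n = r + 4 := ⟨n - 4, by omega⟩
  obtain ⟨Z, hZ, h⟩ := Pool.Agent.TH167.SH.exists_fam (Fin (r + 4) × Fin 2)
  refine ⟨Z, hZ, fun P hP0 => ?_⟩
  have hP := (h _).1 hP0
  have hmax : ∀ (d : ℕ) (w : Fin (r + 4) → ℕ), max (virtdim d w) (-1) = max 0 (chi d w) - 1 := by
    intro d w
    rw [virt_chi]
    omega
  refine ⟨fun d μ w hw => ?_, fun d w hpos => ?_, fun μ hμ => ?_⟩
  · have h1 := superabundance (ok_of_generic hP w) d μ hw
    rw [hmax]
    unfold dimL
    linarith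
  · obtain ⟨d', w', k, G, e, u, N, d1, w1, h1, h2, h3, -, h4, h5, h6, h7⟩ := std_form hP d w hpos
    exact ⟨d', w', k, G, e, u, N, d1, w1, h1, h2, h3, h4, h5, h6, h7⟩
  · have hne : P 0 ≠ P 1 := by
      intro h0
      have h1 := hP.injective
      have h2 : (((0 : Fin (r + 4)), (0 : Fin 2)) : Fin (r + 4) × Fin 2) = (1, 0) := h1 (by
        show P 0 0 = P 1 0
        rw [h0])
      have h3 : (0 : Fin (r + 4)) = 1 := congrArg Prod.fst h2
      have h4 := congrArg Fin.val h3
      rw [show ((1 : Fin (r + 4)) : ℕ) = 1 from Nat.mod_eq_of_lt (show 1 < r + 4 by omega)] at h4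
      exact absurd h4 (by simp)
    obtain ⟨d, h1, h2⟩ := two_big hne hμ
    refine ⟨d, two 0 1 μ, two_le 0 1 μ, ?_, ?_⟩
    · unfold dimL
      omega
    · rw [hmax]
      unfold dimL
      linarith

end Pool.Agent.Results.MP_6b2d39_ag.UniformError
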